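import Pool.Agent.Q53.AcyclicReorient.Triangle

/-!
# Supersolvable acyclic reorientation lattices

Definitions (in `Pool.Agent.Q53.AcyclicReorient.Defs`): `Acyclic D`, `rev D S` (the digraph `D^S`),
`AR D` (the acyclic reorientation poset, ordered by inclusion), `underlying D`, `IsLatticeOrder`,
`Supersolvable` (Stanley's definition), `IsSupersolvableLattice P` (the poset `P` is a lattice and
this lattice is supersolvable), `PeoConsistent D`, and `transTournament n`, the transitive
tournament on `0, …, n - 1`, whose acyclic reorientation poset is the weak order of `S_n`.
-/

namespace Pool.Agent.Results.MP_af84f5_co.SupersolvableIffForest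

open Q53.AcyclicReorient

universe u

/-- **Supersolvable acyclic reorientation lattices.**

1. For every finite acyclic digraph `D`, the poset `AR_D` is a supersolvable lattice if and only if
   the underlying graph of `D` is a forest.
2. In particular, if `AR_D` is a supersolvable lattice, then `D` is peo-consistent.
3. The converse of 2 fails: for every `n ≥ 3` the transitive tournament on `n` vertices is acyclic
   and peo-consistent and its acyclic reorientation poset is not a supersolvable lattice.
4. For `n = 3` this poset is a lattice.
5. So it is not true that for all acyclic digraphs `D` the poset `AR_D` is a supersolvable lattice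
   if and only if `D` is peo-consistent. -/
theorem result :
    (∀ (V : Type u) [Finite V] (D : Digraph V), Acyclic D →
      (IsSupersolvableLattice (AR D) ↔ (underlying D).IsAcyclic)) ∧
    (∀ (V : Type u) [Finite V] (D : Digraph V), Acyclic D →
      IsSupersolvableLattice (AR D) → PeoConsistent D) ∧
    (∀ n : ℕ, 3 ≤ n → Acyclic (transTournament n) ∧ PeoConsistent (transTournament n) ∧
      ¬ IsSupersolvableLattice (AR (transTournament n))) ∧
    IsLatticeOrder (AR (transTournament 3)) ∧
    ¬ (∀ (V : Type) [Finite V] (D : Digraph V), Acyclic D →
      (IsSupersolvableLattice (AR D) ↔ PeoConsistent D)) := by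
  have h3 : ∀ n : ℕ, 3 ≤ n → Acyclic (transTournament n) ∧ PeoConsistent (transTournament n) ∧
      ¬ IsSupersolvableLattice (AR (transTournament n)) := fun n hn =>
    ⟨transTournament_acyclic n, transTournament_peo n, fun h =>
      transTournament_not_forest hn (forest_of_supersolvable (transTournament_acyclic n) h)⟩
  refine ⟨fun V _ D hD => ⟨forest_of_supersolvable hD, supersolvable_of_forest hD⟩,
    fun V _ D hD h => peo_of_forest hD (forest_of_supersolvable hD h), h3, triangle_lattice, ?_⟩
  intro h
  obtain ⟨h1, h2, h4⟩ := h3 3 le_rfl
  exact h4 ((h _ _ h1).mpr h2)

end Pool.Agent.Results.MP_af84f5_co.SupersolvableIffForest
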